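import Pool.Agent.Lib.MP_d28baf_an.Rot

set_option autoImplicit false

namespace Pool.Agent.Lib.MP_d28baf_an

open MeasureTheory Set Filter Topology

variable {n : ℕ} {L : T n × E n → ℝ} {ψ : ℝ → T n × E n → T n × E n}

/-- The mean speed of a minimising measure. -/
lemma speed_le (hL : Tonelli L) {C B : ℝ} (hB : ∀ c : E n, ‖c‖ ≤ C → ∀ z : T n × E n,
    ‖z.2‖ ≤ L z - pair c z.2 + B) {c : E n} {a : ℝ} {μ : Measure (T n × E n)}
    (hμ : IsMin L ψ c a μ) (hc : ‖c‖ ≤ C) : ∫ z, ‖z.2‖ ∂μ ≤ -a + B := by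
  have := hμ.prob
  have h1 : ∫ z, ‖z.2‖ ∂μ ≤ ∫ z, (L z - pair c z.2 + B) ∂μ :=
    integral_mono (vel_integrable hL hμ.int).norm (hμ.int.add (integrable_const B)) (hB c hc)
  rw [integral_add hμ.int (integrable_const B), hμ.val] at h1
  simpa using h1

/-- Lower semicontinuity. -/
lemma lsc {f : T n × E n → ℝ} (hf : Continuous f) (hf0 : 0 ≤ f)
    {μ : ProbabilityMeasure (T n × E n)} {μs : ℕ → ProbabilityMeasure (T n × E n)}
    (hlim : Tendsto μs atTop (𝓝 μ)) (hi : ∀ k, Integrable f (μs k : Measure (T n × E n)))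
    {A : ℝ} (hA : Tendsto (fun k => ∫ z, f z ∂(μs k : Measure (T n × E n))) atTop (𝓝 A)) :
    Integrable f (μ : Measure (T n × E n)) ∧ ∫ z, f z ∂(μ : Measure (T n × E n)) ≤ A := by
  have h1 := lintegral_le_liminf_lintegral_of_forall_isOpen_measure_le_liminf_measure
    (μ := (μ : Measure (T n × E n))) (μs := fun k => (μs k : Measure (T n × E n))) hf hf0
    fun G hG => ProbabilityMeasure.le_liminf_measure_open_of_tendsto hlim hG
  have h2 : ∀ k, ∫⁻ z, ENNReal.ofReal (f z) ∂(μs k : Measure (T n × E n)) =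
      ENNReal.ofReal (∫ z, f z ∂(μs k : Measure (T n × E n))) := fun k =>
    (ofReal_integral_eq_lintegral_ofReal (hi k) (Eventually.of_forall hf0)).symm
  simp only [h2] at h1
  have h3 : Tendsto (fun k => ENNReal.ofReal (∫ z, f z ∂(μs k : Measure (T n × E n)))) atTop
      (𝓝 (ENNReal.ofReal A)) := (ENNReal.continuous_ofReal.tendsto A).comp hA
  rw [h3.liminf_eq] at h1
  have hA0 : 0 ≤ A := ge_of_tendsto' hA fun k => integral_nonneg hf0
  have h4 : Integrable f (μ : Measure (T n × E n)) := by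
    refine ⟨hf.aestronglyMeasurable, ?_⟩
    rw [hasFiniteIntegral_iff_ofReal (Eventually.of_forall hf0)]
    exact h1.trans_lt ENNReal.ofReal_lt_top
  refine ⟨h4, ?_⟩
  rw [← ofReal_integral_eq_lintegral_ofReal h4 (Eventually.of_forall hf0)] at h1
  exact (ENNReal.ofReal_le_ofReal_iff hA0).1 h1

lemma tight {μs : ℕ → ProbabilityMeasure (T n × E n)} {D : ℝ}
    (hi : ∀ k, Integrable (fun z : T n × E n => z.2) (μs k : Measure (T n × E n)))
    (hD : ∀ k, ∫ z, ‖z.2‖ ∂(μs k : Measure (T n × E n)) ≤ D) :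
    IsCompact (closure (range μs)) := by
  refine isCompact_closure_of_isTightMeasureSet ?_
  rw [isTightMeasureSet_iff_exists_isCompact_measure_compl_le]
  intro ε hε
  obtain ⟨r, hr0, hr⟩ : ∃ r : ℝ, 0 < r ∧ ENNReal.ofReal (D / r) ≤ ε := by
    rcases eq_or_ne ε ⊤ with rfl | hε'
    · exact ⟨1, one_pos, le_top⟩
    · have he : 0 < ε.toReal := ENNReal.toReal_pos hε.ne' hε'
      refine ⟨(|D| + 1) / ε.toReal, by positivity, ?_⟩
      refine (ENNReal.ofReal_le_ofReal ?_).trans_eq (ENNReal.ofReal_toReal hε')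
      rw [div_div_eq_mul_div, div_le_iff₀ (by positivity)]
      have := le_abs_self D
      nlinarith
  refine ⟨{z | ‖z.2‖ ≤ r}, isCompact_slab r, ?_⟩
  rintro _ ⟨_, ⟨k, rfl⟩, rfl⟩
  have h1 := mul_meas_ge_le_integral_of_nonneg (μ := (μs k : Measure (T n × E n)))
    (f := fun z : T n × E n => ‖z.2‖) (Eventually.of_forall fun z => norm_nonneg _) (hi k).norm r
  have h2 : (μs k : Measure (T n × E n)) {z | ‖z.2‖ ≤ r}ᶜ ≤
      (μs k : Measure (T n × E n)) {z | r ≤ ‖z.2‖} := by
    refine measure_mono fun z hz => ?_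
    simp only [mem_compl_iff, mem_ofPred_eq, not_le] at hz ⊢
    exact hz.le
  refine h2.trans (le_trans ?_ hr)
  rw [← ofReal_measureReal]
  refine ENNReal.ofReal_le_ofReal ?_
  rw [le_div_iff₀ hr0, mul_comm]
  exact h1.trans (hD k)

/-- The limit of invariant measures is invariant. -/
lemma inv_limit (hψ : IsELFlow L ψ) {μ : ProbabilityMeasure (T n × E n)}
    {μs : ℕ → ProbabilityMeasure (T n × E n)} (hlim : Tendsto μs atTop (𝓝 μ))
    (hinv : ∀ k t, MeasurePreserving (ψ t) (μs k : Measure (T n × E n)) (μs k)) (t : ℝ) :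
    MeasurePreserving (ψ t) (μ : Measure (T n × E n)) μ := by
  have hc := continuous_map hψ t
  have h1 := ProbabilityMeasure.tendsto_map_of_tendsto_of_continuous μs μ hlim hc
  have h2 : (fun k => (μs k).map hc.measurable.aemeasurable) = μs := by
    funext k
    refine Subtype.ext ?_
    exact (hinv k t).map_eq
  rw [h2] at h1
  have h3 := tendsto_nhds_unique h1 hlim
  refine ⟨hc.measurable, ?_⟩
  have h4 := congrArg (fun ν : ProbabilityMeasure (T n × E n) => (ν : Measure (T n × E n))) h3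
  exact h4

/-- Continuity of the rotation vector along sequences of classes. -/
lemma rho_seq (hL : Tonelli L) (hψ : IsELFlow L ψ) {c : E n} {a : ℝ} (hα : IsAlpha L ψ c a)
    {ρ : E n} (huniq : ∀ μ, IsMin L ψ c a μ → rho μ = ρ) {cs : ℕ → E n} {as : ℕ → ℝ}
    {μs : ℕ → Measure (T n × E n)} (hcs : Tendsto cs atTop (𝓝 c))
    (hαs : ∀ k, IsAlpha L ψ (cs k) (as k)) (hμs : ∀ k, IsMin L ψ (cs k) (as k) (μs k)) :
    Tendsto (fun k => rho (μs k)) atTop (𝓝 ρ) := by
  obtain ⟨C, hC⟩ : ∃ C, ∀ k, ‖cs k‖ ≤ C := by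
    obtain ⟨C, hC⟩ := hcs.norm.bddAbove_range
    exact ⟨C, fun k => hC ⟨k, rfl⟩⟩
  obtain ⟨B, hB⟩ := vel_bound hL C
  obtain ⟨μ₀, hμ₀⟩ := hα.exists_isMin
  -- lower bound of the `as k`
  have hlow : ∀ k, a + pair (cs k - c) (rho μ₀) ≤ as k := fun k => subgrad hL hμ₀ (hαs k)
  have hlow_lim : Tendsto (fun k => a + pair (cs k - c) (rho μ₀)) atTop (𝓝 a) := by
    have h1 : Tendsto (fun k => pair (cs k - c) (rho μ₀)) atTop (𝓝 (pair (c - c) (rho μ₀))) :=
      (continuous_pair.comp (by fun_prop : Continuous fun x : E n => (x - c, rho μ₀))).tendsto c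
        |>.comp hcs
    have h2 : pair (c - c) (rho μ₀) = 0 := by simp [pair]
    rw [h2] at h1
    simpa using h1.const_add a
  obtain ⟨m, hm⟩ := hlow_lim.bddBelow_range
  have hm' : ∀ k, m ≤ as k := fun k => (hm ⟨k, rfl⟩).trans (hlow k)
  have hint : ∀ k, Integrable (fun z : T n × E n => z.2) (μs k) := fun k => by
    have := (hμs k).prob
    exact vel_integrable hL (hμs k).int
  have hspeed : ∀ k, ∫ z, ‖z.2‖ ∂(μs k) ≤ -m + B := fun k =>
    (speed_le hL hB (hμs k) (hC k)).trans (by linarith [hm' k])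
  have hrho : ∀ k, ‖rho (μs k)‖ ≤ -m + B := fun k =>
    (norm_integral_le_integral_norm _).trans (hspeed k)
  -- `as k → a`
  have has : Tendsto as atTop (𝓝 a) := by
    have hup : ∀ k, as k ≤ a + n * ‖c - cs k‖ * (-m + B) := by
      intro k
      have h1 := subgrad hL (hμs k) hα
      have h2 := (abs_le.1 (abs_pair_le (c - cs k) (rho (μs k)))).1
      have h3 : (n:ℝ) * ‖c - cs k‖ * ‖rho (μs k)‖ ≤ n * ‖c - cs k‖ * (-m + B) := by
        gcongr; exact hrho k
      linarith
    have hup_lim : Tendsto (fun k => a + n * ‖c - cs k‖ * (-m + B)) atTop (𝓝 a) := by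
      have h1 : Tendsto (fun k => ‖c - cs k‖) atTop (𝓝 0) := by
        have h2 := (tendsto_const_nhds (x := c)).sub hcs
        have h3 := h2.norm
        simpa using h3
      have h2 := ((h1.const_mul (n:ℝ)).mul_const (-m + B)).const_add a
      simpa using h2
    exact tendsto_of_tendsto_of_tendsto_of_le_of_le hlow_lim hup_lim hlow hup
  refine tendsto_of_subseq_tendsto fun ns hns => ?_
  -- a subsequence along which the rotation vectors converge
  obtain ⟨ρ', -, φ₁, hφ₁, hρ'⟩ := tendsto_subseq_of_bounded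
    (Metric.isBounded_closedBall (x := (0 : E n)) (r := -m + B))
    (x := fun k => rho (μs (ns k))) fun k => by simpa using hrho (ns k)
  set ν : ℕ → ProbabilityMeasure (T n × E n) := fun k => ⟨μs (ns (φ₁ k)), (hμs _).prob⟩ with hν
  have hcomp : IsCompact (closure (range ν)) :=
    tight (D := -m + B) (fun k => hint _) fun k => hspeed _
  obtain ⟨μ, -, φ₂, hφ₂, hμ⟩ := hcomp.isSeqCompact (x := ν) fun k => subset_closure ⟨k, rfl⟩
  set N : ℕ → ℕ := fun k => ns (φ₁ (φ₂ k)) with hN
  have hNtop : Tendsto N atTop atTop := hns.comp (hφ₁.tendsto_atTop.comp hφ₂.tendsto_atTop)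
  refine ⟨fun k => φ₁ (φ₂ k), ?_⟩
  have hρN : Tendsto (fun k => rho (μs (N k))) atTop (𝓝 ρ') := hρ'.comp hφ₂.tendsto_atTop
  have hinv := inv_limit hψ hμ fun k t => (hμs _).inv t
  -- lower semicontinuity, for every class
  have key : ∀ w : E n, Integrable (fun z => L z - pair (c + w) z.2) (μ : Measure (T n × E n)) ∧
      ∫ z, (L z - pair (c + w) z.2) ∂(μ : Measure (T n × E n)) ≤ -a - pair w ρ' := by
    intro w
    obtain ⟨Bw, hBw⟩ := vel_bound hL ‖c + w‖
    have hcont : Continuous fun z : T n × E n => L z - pair (c + w) z.2 + Bw :=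
      continuous_ell hL _ _
    have hnn : (0 : T n × E n → ℝ) ≤ fun z => L z - pair (c + w) z.2 + Bw := fun z =>
      (norm_nonneg z.2).trans (hBw _ le_rfl z)
    have hik : ∀ k, Integrable (fun z => L z - pair (c + w) z.2 + Bw)
        (μs (N k)) ∧ ∫ z, (L z - pair (c + w) z.2 + Bw) ∂(μs (N k)) =
          -as (N k) + pair (cs (N k) - (c + w)) (rho (μs (N k))) + Bw := by
      intro k
      have := (hμs (N k)).prob
      obtain ⟨h1, h2⟩ := change_class hL (hμs (N k)).int (c + w)
      refine ⟨h1.add (integrable_const _), ?_⟩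
      rw [integral_add h1 (integrable_const _), h2, (hμs (N k)).val]
      simp
    have hlim : Tendsto (fun k => -as (N k) + pair (cs (N k) - (c + w)) (rho (μs (N k))) + Bw)
        atTop (𝓝 (-a + pair (c - (c + w)) ρ' + Bw)) := by
      have h1 : Tendsto (fun k => (cs (N k) - (c + w), rho (μs (N k)))) atTop
          (𝓝 (c - (c + w), ρ')) :=
        ((hcs.comp hNtop).sub_const (c + w)).prodMk_nhds hρN
      have h2 := (continuous_pair (n := n)).tendsto (c - (c + w), ρ') |>.comp h1
      exact ((has.comp hNtop).neg.add h2).add_const Bw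
    have h5 := lsc hcont hnn hμ (fun k => (hik k).1) (A := -a + pair (c - (c + w)) ρ' + Bw) (by
      refine hlim.congr fun k => ?_
      exact (hik k).2.symm)
    have h6 : Integrable (fun z => L z - pair (c + w) z.2) (μ : Measure (T n × E n)) := by
      have := h5.1.sub (integrable_const Bw)
      refine this.congr (Eventually.of_forall fun z => ?_)
      simp
    refine ⟨h6, ?_⟩
    have h7 := h5.2
    rw [integral_add h6 (integrable_const _)] at h7
    have h8 : pair (c - (c + w)) ρ' = -pair w ρ' := by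
      rw [← pair_neg_left]; congr 1; abel
    rw [h8] at h7
    simp at h7
    linarith
  -- the limit is minimising
  have hk0 := key 0
  rw [add_zero] at hk0
  have hp0 : pair 0 ρ' = 0 := by simp [pair]
  have hge := hα.2 ⟨(μ : Measure (T n × E n)), inferInstance, hinv, hk0.1, rfl⟩
  have hval : ∫ z, (L z - pair c z.2) ∂(μ : Measure (T n × E n)) = -a := by
    refine le_antisymm ?_ hge
    have := hk0.2
    rw [hp0] at this
    linarith
  have hμmin : IsMin L ψ c a (μ : Measure (T n × E n)) := ⟨inferInstance, hinv, hk0.1, hval⟩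
  have hρ := huniq _ hμmin
  have hw : ∀ w : E n, pair w ρ' ≤ pair w ρ := by
    intro w
    obtain ⟨_, h1⟩ := change_class hL hk0.1 (c + w)
    have h2 := (key w).2
    rw [h1, hval, hρ] at h2
    have h8 : pair (c - (c + w)) ρ = -pair w ρ := by
      rw [← pair_neg_left]; congr 1; abel
    rw [h8] at h2
    linarith
  have hρρ : ρ' = ρ := by
    funext i
    have h1 := hw (Pi.single i 1)
    have h2 := hw (-Pi.single i 1)
    rw [pair_neg_left, pair_neg_left] at h2
    have h3 : ∀ x : E n, pair (Pi.single i (1:ℝ)) x = x i := by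
      intro x
      unfold pair
      rw [Finset.sum_eq_single i]
      · simp
      · intro j _ hj; simp [Pi.single_eq_of_ne hj]
      · simp
    rw [h3, h3] at h1 h2
    linarith
  rw [← hρρ]
  exact hρN

end Pool.Agent.Lib.MP_d28baf_an
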