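import Pool.Agent.Lib.MP_d28baf_an.Defs

set_option autoImplicit false

namespace Pool.Agent.Lib.MP_d28baf_an

open MeasureTheory Set Filter Topology intervalIntegral

variable {n : ℕ}

lemma proj_add (x y : E n) : proj (x + y) = proj x + proj y := by
  funext i; simp [proj]

lemma proj_sub (x y : E n) : proj (x - y) = proj x - proj y := by
  funext i; simp [proj]

lemma proj_zero : proj (0 : E n) = 0 := by
  funext i; simp [proj]

lemma continuous_proj : Continuous (proj (n := n)) := by
  refine continuous_pi fun i => ?_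
  exact (AddCircle.continuous_mk' (1 : ℝ)).comp (continuous_apply i)

lemma exists_lift (p : T n) : ∃ x : E n, proj x = p := by
  have : ∀ i, ∃ x : ℝ, (x : UnitAddCircle) = p i := fun i => QuotientAddGroup.mk_surjective (p i)
  choose x hx using this
  exact ⟨x, funext hx⟩

/-- Lifts of two points which are as close as the points. -/
lemma exists_lifts (p q : T n) : ∃ x y : E n, proj x = p ∧ proj y = q ∧ ‖y - x‖ ≤ dist p q := by
  obtain ⟨x, hx⟩ := exists_lift p
  obtain ⟨y, hy⟩ := exists_lift q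
  refine ⟨x, fun i => y i - round (y i - x i), hx, ?_, ?_⟩
  · rw [← hy]; funext i
    have : ((round (y i - x i) : ℝ) : UnitAddCircle) = 0 := by
      have := AddCircle.coe_eq_zero_iff (1 : ℝ) (x := ((round (y i - x i) : ℤ) : ℝ))
      rw [this]; exact ⟨round (y i - x i), by simp⟩
    simp only [proj, AddCircle.coe_sub, this, sub_zero]
  · refine (pi_norm_le_iff_of_nonneg dist_nonneg).2 fun i => ?_
    have h1 : ‖((y i - x i : ℝ) : UnitAddCircle)‖ = |(y i - x i) - round (y i - x i)| := by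
      have := AddCircle.norm_eq (1 : ℝ) (x := y i - x i)
      simpa using this
    have h2 : ((y i - x i : ℝ) : UnitAddCircle) = q i - p i := by
      rw [← hx, ← hy]; simp [proj]
    have h3 : ‖q i - p i‖ ≤ dist p q := by
      rw [← dist_eq_norm, dist_comm]; exact dist_le_pi_dist p q i
    have h4 : ((fun i => y i - round (y i - x i)) - x) i = (y i - x i) - round (y i - x i) := by
      simp only [Pi.sub_apply]; ring
    rw [h4, Real.norm_eq_abs, ← h1, h2]
    exact h3

lemma tonelli_continuous {L : T n × E n → ℝ} (hL : Tonelli L) : Continuous L := by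
  have hq : IsOpenQuotientMap (fun x : E n => proj x) := by
    have : (fun x : E n => proj x) = Pi.map (fun _ : Fin n => ((↑) : ℝ → UnitAddCircle)) := rfl
    rw [this]
    exact IsOpenQuotientMap.piMap fun _ => QuotientAddGroup.isOpenQuotientMap_mk
  have hq2 : IsOpenQuotientMap (fun p : E n × E n => (proj p.1, p.2)) := by
    have := hq.prodMap (IsOpenQuotientMap.id (X := E n))
    exact this
  exact hq2.isQuotientMap.continuous_iff.2 hL.smooth.continuous

/-- Concatenation of curves. -/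
lemma acts_trans {L : T n × E n → ℝ} {c : E n} {a : ℝ} {p q r : T n} {A B : ℝ}
    (hA : A ∈ Acts L c a p q) (hB : B ∈ Acts L c a q r) : A + B ∈ Acts L c a p r := by
  obtain ⟨t₁, ht₁, γ₁, u₁, hac₁, hp₁, hq₁, hi₁, rfl⟩ := hA
  obtain ⟨t₂, ht₂, γ₂, u₂, hac₂, hp₂, hq₂, hi₂, rfl⟩ := hB
  set u : ℝ → E n := fun s => if s ≤ t₁ then u₁ s else u₂ (s - t₁) with hu
  set γ : ℝ → E n := fun s => γ₁ 0 + ∫ x in (0:ℝ)..s, u x with hγ
  have hle : t₁ ≤ t₁ + t₂ := by linarith
  have hu1 : ∀ s, s ≤ t₁ → u s = u₁ s := fun s hs => by simp [hu, hs]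
  have hu2 : ∀ s, t₁ < s → u s = u₂ (s - t₁) := fun s hs => by simp [hu, not_le.2 hs]
  have hI1 : IntervalIntegrable u volume 0 t₁ := by
    refine hac₁.int.congr ?_
    intro s hs
    rw [uIoc_of_le ht₁.le] at hs
    exact (hu1 s hs.2).symm
  have hI2' : IntervalIntegrable (fun s => u₂ (s - t₁)) volume t₁ (t₁ + t₂) := by
    have := hac₂.int.comp_sub_right t₁
    simpa [add_comm] using this
  have hI2 : IntervalIntegrable u volume t₁ (t₁ + t₂) := by
    refine hI2'.congr ?_
    intro s hs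
    rw [uIoc_of_le hle] at hs
    exact (hu2 s hs.1).symm
  have hg1 : ∀ s ∈ Icc (0:ℝ) t₁, γ s = γ₁ s := by
    intro s hs
    rw [hac₁.eq s hs]
    simp only [hγ]
    congr 1
    refine integral_congr fun x hx => ?_
    rw [uIcc_of_le hs.1] at hx
    exact hu1 x (hx.2.trans hs.2)
  have hg2 : ∀ s ∈ Icc t₁ (t₁ + t₂), γ s = γ₂ (s - t₁) + (γ₁ t₁ - γ₂ 0) := by
    intro s hs
    have h1 : (∫ x in (0:ℝ)..s, u x) = (∫ x in (0:ℝ)..t₁, u x) + ∫ x in t₁..s, u x := by
      refine (integral_add_adjacent_intervals hI1 (hI2.mono_set ?_)).symm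
      rw [uIcc_of_le hs.1, uIcc_of_le hle]
      exact Icc_subset_Icc_right hs.2
    have h2 : (∫ x in t₁..s, u x) = ∫ x in (0:ℝ)..(s - t₁), u₂ x := by
      have h3 : (∫ x in t₁..s, u x) = ∫ x in t₁..s, u₂ (x - t₁) := by
        refine integral_congr_ae (Eventually.of_forall fun x hx => ?_)
        rw [uIoc_of_le hs.1] at hx
        exact hu2 x hx.1
      rw [h3, integral_comp_sub_right (fun x => u₂ x) t₁, sub_self]
    have h4 : γ₁ t₁ = γ₁ 0 + ∫ x in (0:ℝ)..t₁, u x := by
      have := hg1 t₁ ⟨ht₁.le, le_rfl⟩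
      rw [← this]
    have h5 : γ₂ (s - t₁) = γ₂ 0 + ∫ x in (0:ℝ)..(s - t₁), u₂ x :=
      hac₂.eq _ ⟨by linarith [hs.1], by linarith [hs.2]⟩
    simp only [hγ]
    rw [h1, h2, h5, h4]
    abel
  have hz : proj (γ₁ t₁ - γ₂ 0) = 0 := by rw [proj_sub, hq₁, hp₂, sub_self]
  have hP2 : ∀ s ∈ Icc t₁ (t₁ + t₂), proj (γ s) = proj (γ₂ (s - t₁)) := by
    intro s hs
    rw [hg2 s hs, proj_add, hz, add_zero]
  have hL1 : IntervalIntegrable (fun s => L (proj (γ s), u s)) volume 0 t₁ := by
    refine hi₁.congr ?_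
    intro s hs
    rw [uIoc_of_le ht₁.le] at hs
    simp only [hg1 s ⟨hs.1.le, hs.2⟩, hu1 s hs.2]
  have hL2' : IntervalIntegrable (fun s => L (proj (γ₂ (s - t₁)), u₂ (s - t₁))) volume t₁ (t₁ + t₂) := by
    have := hi₂.comp_sub_right t₁
    simpa [add_comm] using this
  have hL2 : IntervalIntegrable (fun s => L (proj (γ s), u s)) volume t₁ (t₁ + t₂) := by
    refine hL2'.congr ?_
    intro s hs
    rw [uIoc_of_le hle] at hs
    simp only [hP2 s ⟨hs.1.le, hs.2⟩, hu2 s hs.1]
  refine ⟨t₁ + t₂, by linarith, γ, u, ⟨hI1.trans hI2, fun s _ => ?_⟩, ?_, ?_, hL1.trans hL2, ?_⟩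
  · simp [hγ]
  · simpa [hγ] using hp₁
  · rw [hP2 _ ⟨hle, le_rfl⟩, add_sub_cancel_left, hq₂]
  · have hpair : ∀ {f : ℝ → E n} {x y : ℝ}, IntervalIntegrable f volume x y →
        IntervalIntegrable (fun s => pair c (f s)) volume x y := by
      intro f x y hf
      have h6 : (fun s => pair c (f s)) = ∑ i, fun s => c i * f s i := by
        funext s; simp [pair]
      rw [h6]
      refine IntervalIntegrable.sum _ fun i _ => ?_
      refine IntervalIntegrable.const_mul ?_ _
      exact ⟨(ContinuousLinearMap.proj (R := ℝ) (φ := fun _ : Fin n => ℝ) i).integrable_comp hf.1,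
        (ContinuousLinearMap.proj (R := ℝ) (φ := fun _ : Fin n => ℝ) i).integrable_comp hf.2⟩
    have hF1 : IntervalIntegrable (fun s => L (proj (γ s), u s) - pair c (u s) + a) volume 0 t₁ :=
      (hL1.sub (hpair hI1)).add intervalIntegrable_const
    have hF2 : IntervalIntegrable (fun s => L (proj (γ s), u s) - pair c (u s) + a) volume t₁
        (t₁ + t₂) := (hL2.sub (hpair hI2)).add intervalIntegrable_const
    rw [← integral_add_adjacent_intervals hF1 hF2]
    congr 1
    · refine integral_congr fun s hs => ?_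
      rw [uIcc_of_le ht₁.le] at hs
      simp only [hg1 s hs, hu1 s hs.2]
    · have h7 : (∫ s in t₁..(t₁ + t₂), (L (proj (γ s), u s) - pair c (u s) + a)) =
          ∫ s in t₁..(t₁ + t₂), (fun x => L (proj (γ₂ x), u₂ x) - pair c (u₂ x) + a) (s - t₁) := by
        refine integral_congr_ae (Eventually.of_forall fun s hs => ?_)
        rw [uIoc_of_le hle] at hs
        simp only [hP2 s ⟨hs.1.le, hs.2⟩, hu2 s hs.1]
      rw [h7, integral_comp_sub_right (fun x => L (proj (γ₂ x), u₂ x) - pair c (u₂ x) + a) t₁]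
      simp

lemma continuous_pair : Continuous fun p : E n × E n => pair p.1 p.2 := by
  unfold pair
  fun_prop

lemma continuous_pair_right (c : E n) : Continuous fun v : E n => pair c v :=
  continuous_pair.comp (by fun_prop : Continuous fun v : E n => (c, v))

lemma isCompact_slab (r : ℝ) : IsCompact {z : T n × E n | ‖z.2‖ ≤ r} := by
  have : {z : T n × E n | ‖z.2‖ ≤ r} = univ ×ˢ Metric.closedBall (0 : E n) r := by
    ext z; simp
  rw [this]
  exact isCompact_univ.prod (isCompact_closedBall _ _)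

lemma exists_K {L : T n × E n → ℝ} (hL : Tonelli L) (c : E n) (a : ℝ) :
    ∃ K : ℝ, 0 ≤ K ∧ ∀ z : T n × E n, ‖z.2‖ ≤ 1 → L z - pair c z.2 + a ≤ K := by
  have hc : Continuous fun z : T n × E n => L z - pair c z.2 + a :=
    ((tonelli_continuous hL).sub ((continuous_pair_right c).comp continuous_snd)).add
      continuous_const
  obtain ⟨K, hK⟩ := (isCompact_slab (n := n) 1).bddAbove_image hc.continuousOn
  refine ⟨max K 0, le_max_right _ _, fun z hz => le_max_of_le_left ?_⟩
  exact hK ⟨z, hz, rfl⟩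

/-- Short curves between near points. -/
lemma acts_near {L : T n × E n → ℝ} (hL : Tonelli L) {c : E n} {a K : ℝ}
    (hK : ∀ z : T n × E n, ‖z.2‖ ≤ 1 → L z - pair c z.2 + a ≤ K) {δ : ℝ} (hδ : 0 < δ) {p q : T n}
    (h : dist p q ≤ δ) : ∃ A ∈ Acts L c a p q, A ≤ K * δ := by
  obtain ⟨x, y, hx, hy, hxy⟩ := exists_lifts p q
  set w : E n := δ⁻¹ • (y - x) with hw
  have hw1 : ‖w‖ ≤ 1 := by
    rw [hw, norm_smul, norm_inv, Real.norm_of_nonneg hδ.le, inv_mul_le_iff₀ hδ, mul_one]
    exact hxy.trans h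
  have hcont : Continuous fun s : ℝ => L (proj (x + s • w), w) :=
    (tonelli_continuous hL).comp ((continuous_proj.comp (by fun_prop)).prodMk continuous_const)
  refine ⟨_, ⟨δ, hδ, fun s => x + s • w, fun _ => w, ⟨intervalIntegrable_const, ?_⟩, ?_, ?_,
    hcont.intervalIntegrable _ _, rfl⟩, ?_⟩
  · intro s _
    simp
  · simpa using hx
  · have : x + δ • w = y := by
      rw [hw, smul_smul, mul_inv_cancel₀ hδ.ne', one_smul]; abel
    simpa [this] using hy
  · have hc2 : Continuous fun s : ℝ => L (proj (x + s • w), w) - pair c w + a :=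
      (hcont.sub continuous_const).add continuous_const
    have h1 : (∫ s in (0:ℝ)..δ, (L (proj (x + s • w), w) - pair c w + a)) ≤
        ∫ s in (0:ℝ)..δ, K := by
      refine integral_mono_on hδ.le (hc2.intervalIntegrable _ _) intervalIntegrable_const ?_
      intro s _
      exact hK (proj (x + s • w), w) hw1
    refine h1.trans ?_
    simp [mul_comm]

lemma dist_torus_le (p q : T n) : dist p q ≤ 1 := by
  refine (dist_pi_le_iff zero_le_one).2 fun i => ?_
  rw [dist_eq_norm]
  have := AddCircle.norm_le_half_period (1 : ℝ) (x := p i - q i) one_ne_zero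
  simp at this
  linarith

lemma acts_nonempty {L : T n × E n → ℝ} (hL : Tonelli L) (c : E n) (a : ℝ) (p q : T n) :
    (Acts L c a p q).Nonempty := by
  obtain ⟨K, _, hK⟩ := exists_K hL c a
  obtain ⟨A, hA, _⟩ := acts_near hL hK one_pos (dist_torus_le p q)
  exact ⟨A, hA⟩

/-- Loops have non-negative action as soon as some infimum of actions is finite. -/
lemma loops_nonneg {L : T n × E n → ℝ} (hL : Tonelli L) {c : E n} {a : ℝ} {p q : T n}
    (h : BddBelow (Acts L c a p q)) (r : T n) {A : ℝ} (hA : A ∈ Acts L c a r r) : 0 ≤ A := by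
  by_contra hneg
  push Not at hneg
  obtain ⟨m, hm⟩ := h
  obtain ⟨B₁, hB₁⟩ := acts_nonempty hL c a p r
  obtain ⟨B₂, hB₂⟩ := acts_nonempty hL c a r q
  have key : ∀ N : ℕ, B₁ + N * A ∈ Acts L c a p r := by
    intro N
    induction N with
    | zero => simpa using hB₁
    | succ N ih =>
      have := acts_trans ih hA
      push_cast
      rw [show B₁ + ((N:ℝ) + 1) * A = B₁ + N * A + A by ring]
      exact this
  obtain ⟨N, hN⟩ := exists_nat_gt ((B₁ + B₂ - m) / (-A))
  have h1 := hm (acts_trans (key N) hB₂)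
  rw [div_lt_iff₀ (by linarith)] at hN
  linarith

/-- The infimum of the actions. -/
noncomputable def Phi (L : T n × E n → ℝ) (c : E n) (a : ℝ) (p q : T n) : ℝ := sInf (Acts L c a p q)

section Phi

variable {L : T n × E n → ℝ} {c : E n} {a : ℝ}

lemma bdd_acts (hL : Tonelli L) (hloop : ∀ r, ∀ A ∈ Acts L c a r r, 0 ≤ A) (p q : T n) :
    BddBelow (Acts L c a p q) := by
  obtain ⟨B, hB⟩ := acts_nonempty hL c a q p
  refine ⟨-B, fun A hA => ?_⟩
  have := hloop p _ (acts_trans hA hB)
  linarith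

lemma Phi_le (hL : Tonelli L) (hloop : ∀ r, ∀ A ∈ Acts L c a r r, 0 ≤ A) {p q : T n} {A : ℝ}
    (hA : A ∈ Acts L c a p q) : Phi L c a p q ≤ A :=
  csInf_le (bdd_acts hL hloop p q) hA

lemma Phi_self_nonneg (hL : Tonelli L) (hloop : ∀ r, ∀ A ∈ Acts L c a r r, 0 ≤ A) (p : T n) :
    0 ≤ Phi L c a p p :=
  le_csInf (acts_nonempty hL c a p p) fun A hA => hloop p A hA

lemma Phi_step (hL : Tonelli L) (hloop : ∀ r, ∀ A ∈ Acts L c a r r, 0 ≤ A) {p q r : T n} {A : ℝ}
    (hA : A ∈ Acts L c a q r) : Phi L c a p r ≤ Phi L c a p q + A := by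
  have : Phi L c a p r - A ≤ Phi L c a p q :=
    le_csInf (acts_nonempty hL c a p q) fun B hB => by
      have := Phi_le hL hloop (acts_trans hB hA)
      linarith
  linarith

lemma Phi_step_left (hL : Tonelli L) (hloop : ∀ r, ∀ A ∈ Acts L c a r r, 0 ≤ A) {p q r : T n}
    {A : ℝ} (hA : A ∈ Acts L c a p q) : Phi L c a p r ≤ A + Phi L c a q r := by
  have : Phi L c a p r - A ≤ Phi L c a q r :=
    le_csInf (acts_nonempty hL c a q r) fun B hB => by
      have := Phi_le hL hloop (acts_trans hA hB)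
      linarith
  linarith

lemma Phi_near (hL : Tonelli L) (hloop : ∀ r, ∀ A ∈ Acts L c a r r, 0 ≤ A) {K : ℝ}
    (hK : ∀ z : T n × E n, ‖z.2‖ ≤ 1 → L z - pair c z.2 + a ≤ K) {δ : ℝ} (hδ : 0 < δ) {p q r : T n}
    (h : dist q r ≤ δ) : |Phi L c a p r - Phi L c a p q| ≤ K * δ := by
  obtain ⟨A, hA, hA'⟩ := acts_near hL hK hδ h
  obtain ⟨B, hB, hB'⟩ := acts_near hL hK hδ (by rwa [dist_comm] at h : dist r q ≤ δ)
  have h1 := Phi_step hL hloop (p := p) hA
  have h2 := Phi_step hL hloop (p := p) hB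
  rw [abs_le]
  constructor <;> linarith

lemma continuous_Phi (hL : Tonelli L) (hloop : ∀ r, ∀ A ∈ Acts L c a r r, 0 ≤ A) (p : T n) :
    Continuous fun q => Phi L c a p q := by
  obtain ⟨K, hK0, hK⟩ := exists_K hL c a
  refine Metric.continuous_iff.2 fun q ε hε => ?_
  refine ⟨ε / (K + 1), by positivity, fun r hr => ?_⟩
  have h1 := Phi_near hL hloop hK (p := p) (q := q) (r := r) (δ := ε / (K + 1)) (by positivity)
    (by rw [dist_comm]; exact hr.le)
  rw [Real.dist_eq]
  refine h1.trans_lt ?_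
  rw [← mul_div_assoc, div_lt_iff₀ (by positivity)]
  nlinarith

end Phi

section Orbit

variable {L : T n × E n → ℝ} {ψ : ℝ → T n × E n → T n × E n}

lemma continuous_orbit (hψ : IsELFlow L ψ) (z : T n × E n) : Continuous fun t => ψ t z :=
  hψ.cont.comp (by fun_prop : Continuous fun t : ℝ => (t, z))

lemma continuous_map (hψ : IsELFlow L ψ) (t : ℝ) : Continuous (ψ t) :=
  hψ.cont.comp (by fun_prop : Continuous fun z : T n × E n => (t, z))

/-- The action along an orbit is the action of a curve. -/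
lemma orbit_acts (hL : Tonelli L) (hψ : IsELFlow L ψ) (c : E n) (a : ℝ) (z : T n × E n) {s t : ℝ}
    (hst : s < t) : (∫ r in s..t, (L (ψ r z) - pair c (ψ r z).2 + a)) ∈
      Acts L c a (ψ s z).1 (ψ t z).1 := by
  obtain ⟨γ, v, hγ, hψz, _⟩ := hψ.el z
  have hv : Continuous v := by
    have : v = fun t => (ψ t z).2 := by funext t; rw [hψz]
    rw [this]
    exact continuous_snd.comp (continuous_orbit hψ z)
  have hLc : Continuous fun r => L (ψ r z) := (tonelli_continuous hL).comp (continuous_orbit hψ z)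
  refine ⟨t - s, by linarith, fun r => γ (r + s), fun r => v (r + s), ⟨?_, ?_⟩, ?_, ?_, ?_, ?_⟩
  · exact (hv.comp (continuous_id.add continuous_const)).intervalIntegrable _ _
  · intro r _
    have h1 : (∫ x in (0:ℝ)..r, v (x + s)) = γ (r + s) - γ (0 + s) := by
      rw [integral_comp_add_right (fun x => v x) s]
      exact integral_eq_sub_of_hasDerivAt (fun x _ => hγ x) (hv.intervalIntegrable _ _)
    rw [h1]; abel
  · simp only [zero_add]; rw [hψz]
  · simp only [sub_add_cancel]; rw [hψz]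
  · have : (fun r => L (proj (γ (r + s)), v (r + s))) = fun r => L (ψ (r + s) z) := by
      funext r; rw [hψz]
    rw [this]
    exact (hLc.comp (continuous_id.add continuous_const)).intervalIntegrable _ _
  · have : (fun r => L (proj (γ (r + s)), v (r + s)) - pair c (v (r + s)) + a) =
        fun r => (fun x => L (ψ x z) - pair c (ψ x z).2 + a) (r + s) := by
      funext r; simp only [hψz]
    rw [this, integral_comp_add_right (fun x => L (ψ x z) - pair c (ψ x z).2 + a) s]
    simp

end Orbit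

end Pool.Agent.Lib.MP_d28baf_an
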