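import Mathlib

/-!
# MP_d28baf_an: Aubry sets of autonomous Tonelli Lagrangians on the torus (definitions)
-/

set_option autoImplicit false

namespace Pool.Agent.Lib.MP_d28baf_an

open MeasureTheory Set Filter Topology

/-- `ℝⁿ`: the velocities, the universal cover of the torus, and `H¹(𝕋ⁿ, ℝ)` (the class of the closed form
`∑ c i dx i` is `c`). -/
abbrev E (n : ℕ) := Fin n → ℝ

/-- The torus `𝕋ⁿ = ℝⁿ/ℤⁿ`. -/
abbrev T (n : ℕ) := Fin n → UnitAddCircle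

/-- The projection `ℝⁿ → 𝕋ⁿ`. -/
def proj {n : ℕ} (x : E n) : T n := fun i => (x i : UnitAddCircle)

/-- The pairing `∑ c i * v i` of a class with a velocity. -/
def pair {n : ℕ} (c v : E n) : ℝ := ∑ i, c i * v i

/-- Autonomous Tonelli Lagrangians on `T𝕋ⁿ = 𝕋ⁿ × ℝⁿ`. -/
structure Tonelli {n : ℕ} (L : T n × E n → ℝ) : Prop where
  smooth : ContDiff ℝ 2 fun p : E n × E n => L (proj p.1, p.2)
  convex : ∀ x v w : E n, w ≠ 0 → 0 < iteratedDeriv 2 (fun t : ℝ => L (proj x, v + t • w)) 0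
  superlinear : ∀ K : ℝ, ∃ R : ℝ, ∀ z : T n × E n, R ≤ ‖z.2‖ → K * ‖z.2‖ ≤ L z

/-- `ψ` is the Euler-Lagrange flow of `L`. -/
structure IsELFlow {n : ℕ} (L : T n × E n → ℝ) (ψ : ℝ → T n × E n → T n × E n) : Prop where
  cont : Continuous fun q : ℝ × (T n × E n) => ψ q.1 q.2
  zero : ∀ z, ψ 0 z = z
  add : ∀ s t z, ψ (s + t) z = ψ s (ψ t z)
  el : ∀ z, ∃ γ v : ℝ → E n, (∀ t, HasDerivAt γ (v t) t) ∧ (∀ t, ψ t z = (proj (γ t), v t)) ∧
    ∀ t, HasDerivAt (fun s => fderiv ℝ (fun w : E n => L (proj (γ s), w)) (v s))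
      (fderiv ℝ (fun y : E n => L (proj y, v t)) (γ t)) t

/-- `γ` is absolutely continuous on `[a, b]` with the velocity `u`. -/
structure IsAC {n : ℕ} (γ u : ℝ → E n) (a b : ℝ) : Prop where
  int : IntervalIntegrable u volume a b
  eq : ∀ s ∈ Icc a b, γ s = γ a + ∫ r in a..s, u r

/-- The actions `∫ (L - c + a)` of the absolutely continuous curves from `p` to `q` (all times `t > 0`). -/
def Acts {n : ℕ} (L : T n × E n → ℝ) (c : E n) (a : ℝ) (p q : T n) : Set ℝ :=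
  {A | ∃ t : ℝ, 0 < t ∧ ∃ γ u : ℝ → E n, IsAC γ u 0 t ∧ proj (γ 0) = p ∧ proj (γ t) = q ∧
    IntervalIntegrable (fun s => L (proj (γ s), u s)) volume 0 t ∧
    A = ∫ s in (0 : ℝ)..t, (L (proj (γ s), u s) - pair c (u s) + a)}

/-- `γ` (with the velocity `u`) is `c`-static, `a` being `α(c)`: its action on each `[s, t]` is minus the
infimum `Φ_c(γ t, γ s)` of the actions of the curves from `γ t` to `γ s`. -/
def IsStatic {n : ℕ} (L : T n × E n → ℝ) (c : E n) (a : ℝ) (γ u : ℝ → E n) : Prop :=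
  ∀ s t : ℝ, s < t → IsAC γ u s t ∧ IntervalIntegrable (fun r => L (proj (γ r), u r)) volume s t ∧
    IsGLB (Acts L c a (proj (γ t)) (proj (γ s)))
      (-(∫ r in s..t, (L (proj (γ r), u r) - pair c (u r) + a)))

/-- The Aubry set. -/
def Aubry {n : ℕ} (L : T n × E n → ℝ) (c : E n) (a : ℝ) : Set (T n × E n) :=
  {z | ∃ γ u : ℝ → E n, IsStatic L c a γ u ∧ ∃ t : ℝ, z.1 = proj (γ t) ∧ HasDerivAt γ z.2 t}

/-- `a = α(c)`: `-a` is the minimum of `∫ (L - c) dμ` over the `ψ`-invariant probability measures. -/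
def IsAlpha {n : ℕ} (L : T n × E n → ℝ) (ψ : ℝ → T n × E n → T n × E n) (c : E n) (a : ℝ) : Prop :=
  IsLeast {A : ℝ | ∃ μ : Measure (T n × E n), IsProbabilityMeasure μ ∧
    (∀ t, MeasurePreserving (ψ t) μ μ) ∧ Integrable (fun z => L z - pair c z.2) μ ∧
    A = ∫ z, (L z - pair c z.2) ∂μ} (-a)

/-- The classes `c` for which the Aubry set is exactly one periodic orbit (or equilibrium). -/
def OneOrbit {n : ℕ} (L : T n × E n → ℝ) (ψ : ℝ → T n × E n → T n × E n) : Set (E n) :=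
  {c | ∃ a : ℝ, IsAlpha L ψ c a ∧ ∃ (z₀ : T n × E n) (τ : ℝ), 0 < τ ∧ ψ τ z₀ = z₀ ∧
    Aubry L c a = {z | ∃ t : ℝ, z = ψ t z₀}}

end Pool.Agent.Lib.MP_d28baf_an
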