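import Pool.Agent.Lib.MP_d28baf_an.Cont

set_option autoImplicit false

namespace Pool.Agent.Lib.MP_d28baf_an

open MeasureTheory Set Filter Topology

variable {n : ℕ} {L : T n × E n → ℝ} {ψ : ℝ → T n × E n → T n × E n}

/-- Outside a ball, the rotation vectors of a connected set of classes in `OneOrbit` have one
direction, that of an integer vector. -/
lemma one_direction (hL : Tonelli L) (hψ : IsELFlow L ψ) : ∃ R M : ℝ, ∀ S : Set (E n),
    IsPreconnected S → S ⊆ OneOrbit L ψ → (∀ c ∈ S, R ≤ ‖c‖) → ∃ h : Fin n → ℤ, ∀ c ∈ S,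
      ∃ (a s : ℝ) (μ : Measure (T n × E n)), 0 < s ∧ IsAlpha L ψ c a ∧ IsMin L ψ c a μ ∧
        ‖c‖ ≤ a + M ∧ rho μ = s • (fun i => (h i : ℝ)) ∧ 0 < pair c (rho μ) := by
  obtain ⟨M, hM⟩ := growth hL
  obtain ⟨B, hB⟩ := vel_bound hL 0
  refine ⟨M + B + 1, M, fun S hS hSG hSR => ?_⟩
  have hdata : ∀ c : S, ∃ a : ℝ, IsAlpha L ψ c a ∧ ∃ (z₀ : T n × E n) (τ : ℝ), 0 < τ ∧
      ψ τ z₀ = z₀ ∧ Aubry L c a = {z | ∃ t : ℝ, z = ψ t z₀} := fun c => hSG c.2
  choose a hα z₀ τ hτ hper hA using hdata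
  choose μ hμ using fun c => (hα c).exists_isMin
  choose H hH using fun c => rot hL hψ (hτ c) (hper c) (hA c)
  have hloop : ∀ c : S, ∀ r, ∀ A ∈ Acts L c (a c) r r, 0 ≤ A := fun c =>
    loops_of_nonempty hL (by rw [hA]; exact ⟨ψ 0 (z₀ c), 0, rfl⟩)
  have hgrow : ∀ c : S, ‖(c : E n)‖ ≤ a c + M := fun c => hM c (a c) (hloop c)
  have hpos : ∀ c : S, 0 < pair c (rho (μ c)) := by
    intro c
    have := (hμ c).prob
    obtain ⟨h1, h2⟩ := change_class hL (hμ c).int 0
    have h3 : -B ≤ ∫ z, (L z - pair 0 z.2) ∂(μ c) := by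
      have h4 : ∫ _z, (-B) ∂(μ c) ≤ ∫ z, (L z - pair 0 z.2) ∂(μ c) := by
        refine integral_mono (integrable_const _) h1 fun z => ?_
        have := hB 0 (by simp) z
        have h5 := norm_nonneg z.2
        show -B ≤ L z - pair 0 z.2
        linarith
      simpa using h4
    rw [h2, (hμ c).val, sub_zero] at h3
    have h4 := hgrow c
    have h5 := hSR c c.2
    linarith
  have hsm : ∀ c : S, rho (μ c) = (τ c)⁻¹ • fun i => (H c i : ℝ) := by
    intro c
    rw [← hH c (μ c) (hμ c), smul_smul, inv_mul_cancel₀ (hτ c).ne', one_smul]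
  have hne : ∀ c : S, rho (μ c) ≠ 0 := by
    intro c h0
    have h1 := hpos c
    have h2 : pair (c : E n) 0 = 0 := by simp [pair]
    rw [h0, h2] at h1
    exact lt_irrefl _ h1
  have hcont : Continuous fun c : S => rho (μ c) := by
    refine continuous_iff_continuousAt.2 fun c => ?_
    refine tendsto_of_seq_tendsto fun u hu => ?_
    refine rho_seq (c := c) (cs := fun k => (u k : E n)) (as := fun k => a (u k))
      (μs := fun k => μ (u k)) hL hψ (hα c) ?_ ?_ (fun k => hα (u k)) (fun k => hμ (u k))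
    · intro ν hν
      have h1 := hH c ν hν
      show rho ν = rho (μ c)
      rw [hsm c, ← h1, smul_smul, inv_mul_cancel₀ (hτ c).ne', one_smul]
    · exact (continuous_subtype_val.tendsto c).comp hu
  -- the direction
  set F : S → E n := fun c => ‖rho (μ c)‖⁻¹ • rho (μ c) with hF
  have hFcont : Continuous F := (hcont.norm.inv₀ fun c => norm_ne_zero_iff.2 (hne c)).smul hcont
  have hFdir : ∀ c : S, F c = ‖(fun i => (H c i : ℝ))‖⁻¹ • fun i => (H c i : ℝ) := by
    intro c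
    have ht : (0:ℝ) < (τ c)⁻¹ := inv_pos.2 (hτ c)
    simp only [hF]
    rw [hsm c, norm_smul, Real.norm_of_nonneg ht.le, smul_smul]
    congr 1
    rw [mul_inv, mul_comm, ← mul_assoc, mul_inv_cancel₀ ht.ne', one_mul]
  have hcount : (range F).Countable := by
    refine (countable_range fun H : Fin n → ℤ =>
      ‖(fun i => (H i : ℝ) : E n)‖⁻¹ • (fun i => (H i : ℝ) : E n)).mono ?_
    rintro _ ⟨c, rfl⟩
    exact ⟨H c, (hFdir c).symm⟩
  have hpre : IsPreconnected (range F) := by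
    have : PreconnectedSpace S := Subtype.preconnectedSpace hS
    exact isPreconnected_range hFcont
  have hsub : (range F).Subsingleton := hcount.isTotallyDisconnected _ subset_rfl hpre
  rcases S.eq_empty_or_nonempty with rfl | ⟨c₀, hc₀⟩
  · exact ⟨0, fun c hc => absurd hc (notMem_empty c)⟩
  refine ⟨H ⟨c₀, hc₀⟩, fun c hc => ?_⟩
  have h1 : F ⟨c, hc⟩ = F ⟨c₀, hc₀⟩ := hsub ⟨_, rfl⟩ ⟨_, rfl⟩
  have hH0 : (0:ℝ) < ‖(fun i => (H ⟨c₀, hc₀⟩ i : ℝ) : E n)‖ := by
    refine norm_pos_iff.2 fun h0 => hne ⟨c₀, hc₀⟩ ?_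
    rw [hsm, h0, smul_zero]
  have hr0 : 0 < ‖rho (μ ⟨c, hc⟩)‖ := norm_pos_iff.2 (hne _)
  refine ⟨a ⟨c, hc⟩, ‖rho (μ ⟨c, hc⟩)‖ * ‖(fun i => (H ⟨c₀, hc₀⟩ i : ℝ) : E n)‖⁻¹, μ ⟨c, hc⟩,
    by positivity, hα ⟨c, hc⟩, hμ ⟨c, hc⟩, hgrow ⟨c, hc⟩, ?_, hpos ⟨c, hc⟩⟩
  rw [mul_smul, ← hFdir, ← h1]
  simp only [hF]
  rw [smul_smul, mul_inv_cancel₀ hr0.ne', one_smul]

/-- Outside a ball, a connected set of classes in `OneOrbit` lies in a rational half space and
contains no line. -/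
theorem far (hL : Tonelli L) (hψ : IsELFlow L ψ) : ∃ R : ℝ,
    (∀ S : Set (E n), IsPreconnected S → S ⊆ OneOrbit L ψ → (∀ c ∈ S, R ≤ ‖c‖) →
      ∃ h : Fin n → ℤ, ∀ c ∈ S, 0 < pair c fun i => (h i : ℝ)) ∧
    ∀ p e : E n, e ≠ 0 → (∀ t : ℝ, R ≤ ‖p + t • e‖) → ∃ t : ℝ, p + t • e ∉ OneOrbit L ψ := by
  obtain ⟨R, M, hR⟩ := one_direction hL hψ
  refine ⟨R, fun S hS hSG hSR => ?_, fun p e he hp => ?_⟩
  · obtain ⟨h, hh⟩ := hR S hS hSG hSR
    refine ⟨h, fun c hc => ?_⟩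
    obtain ⟨a, s, μ, hs, _, _, _, h1, h2⟩ := hh c hc
    rw [h1, pair_smul_right] at h2
    exact (pos_iff_pos_of_mul_pos h2).1 hs
  · by_contra hcon
    push Not at hcon
    have hline : Continuous fun t : ℝ => p + t • e := by fun_prop
    obtain ⟨h, hh⟩ := hR (range fun t : ℝ => p + t • e) (isPreconnected_range hline)
      (by rintro _ ⟨t, rfl⟩; exact hcon t) (by rintro _ ⟨t, rfl⟩; exact hp t)
    obtain ⟨a₀, _, _, _, hα₀, _, hg₀, _, _⟩ := hh p ⟨0, by simp⟩
    have he0 : 0 < ‖e‖ := norm_pos_iff.2 he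
    have hnum : 0 < a₀ + M + ‖p‖ + 1 := by
      have := norm_nonneg p
      linarith
    set s : ℝ := (a₀ + M + ‖p‖ + 1) / ‖e‖ with hs
    have hs0 : 0 < s := div_pos hnum he0
    have hse : s * ‖e‖ = a₀ + M + ‖p‖ + 1 := div_mul_cancel₀ _ he0.ne'
    have key : ∀ t : ℝ, |t| = s → 0 < t * pair e fun i => (h i : ℝ) := by
      intro t ht
      obtain ⟨a, σ, μ, hσ, hα, hμ, hg, hρ, _⟩ := hh (p + t • e) ⟨t, rfl⟩
      have h1 := subgrad hL hμ hα₀
      have h2 : p - (p + t • e) = (-t) • e := by rw [neg_smul]; abel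
      rw [h2, pair_smul_left, hρ, pair_smul_right] at h1
      have h3 : s * ‖e‖ ≤ ‖p + t • e‖ + ‖p‖ := by
        have h4 : ‖t • e‖ ≤ ‖p + t • e‖ + ‖p‖ := by
          have h5 : t • e = (p + t • e) - p := by abel
          calc ‖t • e‖ = ‖(p + t • e) - p‖ := by rw [← h5]
            _ ≤ _ := norm_sub_le _ _
        rw [norm_smul, Real.norm_eq_abs, ht] at h4
        exact h4
      have h6 : 0 < σ * (t * pair e fun i => (h i : ℝ)) := by
        have h7 : σ * (t * pair e fun i => (h i : ℝ)) =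
            -(-t * (σ * pair e fun i => (h i : ℝ))) := by ring
        rw [h7]
        linarith
      exact (pos_iff_pos_of_mul_pos h6).1 hσ
    have h1 := key s (abs_of_pos hs0)
    have h2 := key (-s) (by rw [abs_neg, abs_of_pos hs0])
    linarith

/-- The exceptional classes have infinite `(n-1)`-dimensional measure. -/
theorem big {m : ℕ} (hm : 1 ≤ m) {L : T (m + 1) × E (m + 1) → ℝ}
    {ψ : ℝ → T (m + 1) × E (m + 1) → T (m + 1) × E (m + 1)} (hL : Tonelli L)
    (hψ : IsELFlow L ψ) : μH[(m : ℝ)] (OneOrbit L ψ)ᶜ = ⊤ := by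
  obtain ⟨R, -, hR⟩ := far hL hψ
  set π : E (m + 1) → E m := fun c i => c i.succ with hπ
  have hlip : LipschitzWith 1 π := by
    refine LipschitzWith.of_dist_le_mul fun x y => ?_
    rw [NNReal.coe_one, one_mul]
    refine (dist_pi_le_iff dist_nonneg).2 fun i => ?_
    exact dist_le_pi_dist x y i.succ
  have hsub : {q : E m | R ≤ ‖q‖} ⊆ π '' (OneOrbit L ψ)ᶜ := by
    intro q hq
    have hline : ∀ t : ℝ, (Fin.cons 0 q : E (m + 1)) + t • (Pi.single 0 1 : E (m + 1)) =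
        (Fin.cons t q : E (m + 1)) := by
      intro t
      funext i
      refine Fin.cases ?_ (fun i => ?_) i
      · simp
      · simp
    obtain ⟨t, ht⟩ := hR (Fin.cons 0 q) (Pi.single 0 1) (by simp) (by
      intro t
      rw [hline]
      refine le_trans (show R ≤ ‖q‖ from hq) ?_
      refine (pi_norm_le_iff_of_nonneg (norm_nonneg _)).2 fun i => ?_
      have := norm_le_pi_norm (Fin.cons t q : E (m + 1)) i.succ
      simpa using this)
    rw [hline] at ht
    exact ⟨_, ht, by funext i; simp [hπ]⟩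
  have h1 : μH[(m : ℝ)] {q : E m | R ≤ ‖q‖} ≤ μH[(m : ℝ)] (OneOrbit L ψ)ᶜ := by
    refine (measure_mono hsub).trans ?_
    have := hlip.hausdorffMeasure_image_le (d := (m : ℝ)) (Nat.cast_nonneg m) (OneOrbit L ψ)ᶜ
    simpa using this
  have hvol : (μH[(m : ℝ)] : Measure (E m)) = volume := by
    have := hausdorffMeasure_pi_real (ι := Fin m)
    simpa using this
  rw [hvol] at h1
  have h2 : volume {q : E m | R ≤ ‖q‖} = ⊤ := by
    have : Nonempty (Fin m) := ⟨⟨0, hm⟩⟩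
    have hnt : Nontrivial (E m) := inferInstance
    have hnc : NoncompactSpace (E m) := NormedSpace.noncompactSpace ℝ (E m)
    have h3 : volume (univ : Set (E m)) = ⊤ := measure_univ_of_isAddLeftInvariant volume
    by_contra h4
    have h5 : (univ : Set (E m)) ⊆ Metric.ball 0 R ∪ {q : E m | R ≤ ‖q‖} := by
      intro q _
      rcases lt_or_ge ‖q‖ R with h | h
      · left; simpa using h
      · right; exact h
    have h6 := (measure_mono h5).trans (measure_union_le (μ := volume) _ _)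
    rw [h3] at h6
    have h7 : volume (Metric.ball (0 : E m) R) < ⊤ := measure_ball_lt_top
    exact absurd h6 (not_le.2 (ENNReal.add_lt_top.2 ⟨h7, lt_top_iff_ne_top.2 h4⟩))
  exact top_le_iff.1 (h2 ▸ h1)

end Pool.Agent.Lib.MP_d28baf_an
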