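import Pool.Agent.Lib.MP_d28baf_an.Static

set_option autoImplicit false

namespace Pool.Agent.Lib.MP_d28baf_an

open MeasureTheory Set Filter Topology intervalIntegral

variable {n : ℕ} {L : T n × E n → ℝ} {ψ : ℝ → T n × E n → T n × E n}

/-- The pairing with `c` as a continuous linear form. -/
noncomputable def pairL (c : E n) : E n →L[ℝ] ℝ :=
  ∑ i, c i • ContinuousLinearMap.proj (R := ℝ) (φ := fun _ : Fin n => ℝ) i

lemma pairL_apply (c v : E n) : pairL c v = pair c v := by
  simp [pairL, pair]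

lemma pair_add_left (c d v : E n) : pair (c + d) v = pair c v + pair d v := by
  simp [pair, add_mul, Finset.sum_add_distrib]

lemma pair_sub_left (c d v : E n) : pair (c - d) v = pair c v - pair d v := by
  simp [pair, sub_mul, Finset.sum_sub_distrib]

lemma pair_smul_left (t : ℝ) (c v : E n) : pair (t • c) v = t * pair c v := by
  simp [pair, Finset.mul_sum, mul_assoc]

lemma pair_neg_left (c v : E n) : pair (-c) v = -pair c v := by
  simp [pair]

lemma pair_smul_right (t : ℝ) (c v : E n) : pair c (t • v) = t * pair c v := by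
  rw [← pairL_apply, map_smul, pairL_apply, smul_eq_mul]

lemma abs_pair_le (c v : E n) : |pair c v| ≤ n * ‖c‖ * ‖v‖ := by
  calc |pair c v| ≤ ∑ i, |c i * v i| := Finset.abs_sum_le_sum_abs _ _
    _ ≤ ∑ _i : Fin n, ‖c‖ * ‖v‖ := by
        refine Finset.sum_le_sum fun i _ => ?_
        rw [abs_mul]
        exact mul_le_mul (norm_le_pi_norm c i) (norm_le_pi_norm v i) (abs_nonneg _) (norm_nonneg _)
    _ = n * ‖c‖ * ‖v‖ := by simp; ring

/-- The velocity is dominated by the Lagrangian, locally uniformly in the class. -/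
lemma vel_bound (hL : Tonelli L) (C : ℝ) : ∃ B : ℝ, ∀ c : E n, ‖c‖ ≤ C → ∀ z : T n × E n,
    ‖z.2‖ ≤ L z - pair c z.2 + B := by
  obtain ⟨R, hR⟩ := hL.superlinear (n * C + 1)
  obtain ⟨M, hM⟩ := (isCompact_slab (n := n) R).bddAbove_image
    (tonelli_continuous hL).neg.continuousOn
  refine ⟨max 0 (R + n * C * R + M), fun c hc z => ?_⟩
  have h1 := (abs_le.1 (abs_pair_le c z.2)).2
  have h2 : (n:ℝ) * ‖c‖ * ‖z.2‖ ≤ n * C * ‖z.2‖ := by gcongr
  rcases le_total R ‖z.2‖ with h | h
  · have h3 := hR z h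
    have h4 := le_max_left 0 (R + n * C * R + M)
    linarith
  · have h3 : -L z ≤ M := hM ⟨z, h, rfl⟩
    have h4 := le_max_right 0 (R + n * C * R + M)
    have hC : 0 ≤ C := (norm_nonneg c).trans hc
    have h5 : (n:ℝ) * C * ‖z.2‖ ≤ n * C * R := by gcongr
    linarith

/-- `μ` is a minimising measure of the class `c`, with `α(c) = a`. -/
structure IsMin (L : T n × E n → ℝ) (ψ : ℝ → T n × E n → T n × E n) (c : E n) (a : ℝ)
    (μ : Measure (T n × E n)) : Prop where
  prob : IsProbabilityMeasure μ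
  inv : ∀ t, MeasurePreserving (ψ t) μ μ
  int : Integrable (fun z => L z - pair c z.2) μ
  val : ∫ z, (L z - pair c z.2) ∂μ = -a

lemma IsAlpha.exists_isMin {c : E n} {a : ℝ} (h : IsAlpha L ψ c a) : ∃ μ, IsMin L ψ c a μ := by
  obtain ⟨μ, h1, h2, h3, h4⟩ := h.1
  exact ⟨μ, h1, h2, h3, h4.symm⟩

/-- The rotation vector. -/
noncomputable def rho (μ : Measure (T n × E n)) : E n := ∫ z, z.2 ∂μ

lemma vel_integrable (hL : Tonelli L) {c : E n} {μ : Measure (T n × E n)} [IsProbabilityMeasure μ]
    (h : Integrable (fun z => L z - pair c z.2) μ) : Integrable (fun z => z.2) μ := by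
  obtain ⟨B, hB⟩ := vel_bound hL ‖c‖
  refine Integrable.mono' (h.add (integrable_const B)) continuous_snd.aestronglyMeasurable ?_
  exact Eventually.of_forall fun z => hB c le_rfl z

lemma pair_integrable {μ : Measure (T n × E n)} (h : Integrable (fun z : T n × E n => z.2) μ)
    (c : E n) : Integrable (fun z : T n × E n => pair c z.2) μ := by
  simp only [← pairL_apply]
  exact (pairL c).integrable_comp h

lemma integral_pair {μ : Measure (T n × E n)} (h : Integrable (fun z : T n × E n => z.2) μ)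
    (c : E n) : ∫ z, pair c z.2 ∂μ = pair c (rho μ) := by
  simp only [← pairL_apply]
  exact (pairL c).integral_comp_comm h

lemma change_class (hL : Tonelli L) {c : E n} {μ : Measure (T n × E n)} [IsProbabilityMeasure μ]
    (h : Integrable (fun z => L z - pair c z.2) μ) (d : E n) :
    Integrable (fun z => L z - pair d z.2) μ ∧
      ∫ z, (L z - pair d z.2) ∂μ = ∫ z, (L z - pair c z.2) ∂μ + pair (c - d) (rho μ) := by
  have hv := vel_integrable hL h
  have h1 : (fun z => L z - pair d z.2) = fun z => (L z - pair c z.2) + pair (c - d) z.2 := by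
    funext z; rw [pair_sub_left]; ring
  rw [h1]
  exact ⟨h.add (pair_integrable hv _), by
    rw [integral_add h (pair_integrable hv _), integral_pair hv]⟩

/-- The rotation vector of a minimising measure is a subgradient of `α`. -/
lemma subgrad (hL : Tonelli L) {c d : E n} {a b : ℝ} {μ : Measure (T n × E n)}
    (hμ : IsMin L ψ c a μ) (hd : IsAlpha L ψ d b) : a + pair (d - c) (rho μ) ≤ b := by
  have := hμ.prob
  obtain ⟨h1, h2⟩ := change_class hL hμ.int d
  have h3 := hd.2 ⟨μ, hμ.prob, hμ.inv, h1, rfl⟩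
  rw [h2, hμ.val] at h3
  have h4 : pair (d - c) (rho μ) = -pair (c - d) (rho μ) := by
    rw [← pair_neg_left, neg_sub]
  linarith

/-- A class whose Aubry set is one periodic orbit has non-negative loops. -/
lemma loops_of_nonempty (hL : Tonelli L) {c : E n} {a : ℝ} (h : (Aubry L c a).Nonempty) :
    ∀ r, ∀ A ∈ Acts L c a r r, 0 ≤ A := by
  obtain ⟨z, γ, u, hs, _⟩ := h
  obtain ⟨_, _, h3⟩ := hs 0 1 one_pos
  intro r A hA
  exact loops_nonneg hL ⟨_, h3.1⟩ r hA

lemma growth (hL : Tonelli L) : ∃ M : ℝ, ∀ (c : E n) (a : ℝ),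
    (∀ r, ∀ A ∈ Acts L c a r r, 0 ≤ A) → ‖c‖ ≤ a + M := by
  obtain ⟨K, hK0, hK⟩ := exists_K hL 0 0
  have hK' : ∀ z : T n × E n, ‖z.2‖ ≤ 1 → L z ≤ K := by
    intro z hz
    have := hK z hz
    simpa [pair] using this
  refine ⟨K, fun c a hloop => ?_⟩
  -- loops in the direction `w`, an integer vector of norm one
  have key : ∀ w : E n, ‖w‖ ≤ 1 → proj w = 0 → pair c w ≤ a + K := by
    intro w hw hpw
    have hcont : Continuous fun s : ℝ => L (proj (s • w), w) :=
      (tonelli_continuous hL).comp ((continuous_proj.comp (by fun_prop)).prodMk continuous_const)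
    have h1 : (∫ s in (0:ℝ)..1, (L (proj (s • w), w) - pair c w + a)) ∈ Acts L c a 0 0 := by
      refine ⟨1, one_pos, fun s => s • w, fun _ => w, ⟨intervalIntegrable_const, ?_⟩, ?_, ?_,
        hcont.intervalIntegrable _ _, rfl⟩
      · intro s _
        simp
      · simp [proj_zero]
      · simpa using hpw
    have h2 := hloop 0 _ h1
    have h3 : (∫ s in (0:ℝ)..1, (L (proj (s • w), w) - pair c w + a)) ≤
        ∫ s in (0:ℝ)..1, (K - pair c w + a) := by
      refine integral_mono_on zero_le_one (((hcont.sub continuous_const).add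
        continuous_const).intervalIntegrable _ _) intervalIntegrable_const ?_
      intro s _
      have := hK' (proj (s • w), w) hw
      linarith
    have h4 : (∫ s in (0:ℝ)..1, (K - pair c w + a)) = K - pair c w + a := by simp
    linarith
  rcases isEmpty_or_nonempty (Fin n) with hn | hn
  · have h1 := key 0 (by simp) proj_zero
    have h2 : ‖c‖ = 0 := by
      rw [norm_eq_zero]; exact Subsingleton.elim _ _
    have h3 : pair c 0 = 0 := by simp [pair]
    linarith
  · have h0 : 0 ≤ a + K := by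
      have h1 := key 0 (by simp) proj_zero
      have h3 : pair c 0 = 0 := by simp [pair]
      linarith
    refine (pi_norm_le_iff_of_nonneg h0).2 fun i => ?_
    have hone : ∀ ε : ℝ, |ε| ≤ 1 → (ε : UnitAddCircle) = 0 → ε * c i ≤ a + K := by
      intro ε hε hε0
      have h1 := key (Pi.single i ε) ?_ ?_
      · have h2 : pair c (Pi.single i ε) = ε * c i := by
          unfold pair
          rw [Finset.sum_eq_single i]
          · simp [mul_comm]
          · intro j _ hj; simp [Pi.single_eq_of_ne hj]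
          · simp
        rwa [h2] at h1
      · refine (pi_norm_le_iff_of_nonneg zero_le_one).2 fun j => ?_
        rcases eq_or_ne j i with rfl | hj
        · simpa using hε
        · simp [Pi.single_eq_of_ne hj]
      · funext j
        rcases eq_or_ne j i with rfl | hj
        · simpa [proj] using hε0
        · simp [proj, Pi.single_eq_of_ne hj]
    have h1 := hone 1 (by simp) (by simp)
    have h2 := hone (-1) (by simp) (by simp)
    rw [Real.norm_eq_abs, abs_le]
    constructor <;> linarith

/-- Rotation vectors of the classes in `OneOrbit` are rational directions. -/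
lemma rot (hL : Tonelli L) (hψ : IsELFlow L ψ) {c : E n} {a : ℝ} {z₀ : T n × E n} {τ : ℝ}
    (hτ : 0 < τ) (hper : ψ τ z₀ = z₀) (hA : Aubry L c a = {z | ∃ t : ℝ, z = ψ t z₀}) :
    ∃ H : Fin n → ℤ, ∀ μ, IsMin L ψ c a μ → τ • rho μ = fun i => (H i : ℝ) := by
  have hne : (Aubry L c a).Nonempty := by
    rw [hA]; exact ⟨ψ 0 z₀, 0, rfl⟩
  have hloop := loops_of_nonempty hL hne
  obtain ⟨γ, v, hγ, hψz, _⟩ := hψ.el z₀
  have hv : Continuous v := by
    have : v = fun t => (ψ t z₀).2 := by funext t; rw [hψz]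
    rw [this]
    exact continuous_snd.comp (continuous_orbit hψ z₀)
  have hvper : Function.Periodic v τ := by
    intro s
    have h1 : v (s + τ) = (ψ (s + τ) z₀).2 := by rw [hψz]
    have h2 : v s = (ψ s z₀).2 := by rw [hψz]
    rw [h1, h2, hψ.add, hper]
  have hp : proj (γ τ - γ 0) = 0 := by
    have h1 : proj (γ τ) = (ψ τ z₀).1 := by rw [hψz]
    have h2 : proj (γ 0) = (ψ 0 z₀).1 := by rw [hψz]
    rw [proj_sub, h1, h2, hper, hψ.zero, sub_self]
  have hH : ∀ i, ∃ m : ℤ, (γ τ - γ 0) i = m := by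
    intro i
    have h1 := congrFun hp i
    have h2 : (((γ τ - γ 0) i : ℝ) : UnitAddCircle) = 0 := h1
    rw [AddCircle.coe_eq_zero_iff] at h2
    obtain ⟨m, hm⟩ := h2
    exact ⟨m, by rw [← hm]; simp⟩
  choose H hH using hH
  refine ⟨H, fun μ hμ => ?_⟩
  have := hμ.prob
  have hvi := vel_integrable hL hμ.int
  have hae := ae_mem_Aubry hL hψ hloop hμ.inv hμ.int hμ.val
  obtain ⟨_, h2⟩ := avg_flow hψ hμ.inv hvi hτ.le
  have h3 : ∀ᵐ z ∂μ, (∫ s in (0:ℝ)..τ, (ψ s z).2) = γ τ - γ 0 := by
    filter_upwards [hae] with z hz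
    rw [hA] at hz
    obtain ⟨r, rfl⟩ := hz
    have h4 : (∫ s in (0:ℝ)..τ, (ψ s (ψ r z₀)).2) = ∫ s in (0:ℝ)..τ, v (s + r) := by
      refine integral_congr fun s _ => ?_
      show (ψ s (ψ r z₀)).2 = v (s + r)
      rw [← hψ.add, hψz]
    rw [h4, integral_comp_add_right (fun x => v x) r, zero_add, add_comm τ r,
      hvper.intervalIntegral_add_eq r 0, zero_add]
    exact integral_eq_sub_of_hasDerivAt (fun x _ => hγ x) (hv.intervalIntegrable _ _)
  rw [MeasureTheory.integral_congr_ae h3] at h2
  unfold rho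
  rw [← h2, MeasureTheory.integral_const, probReal_univ, one_smul]
  funext i
  exact hH i

end Pool.Agent.Lib.MP_d28baf_an
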