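import Pool.Agent.Lib.MP_d28baf_an.Curves

set_option autoImplicit false

namespace Pool.Agent.Lib.MP_d28baf_an

open MeasureTheory Set Filter Topology intervalIntegral

variable {n : ℕ} {L : T n × E n → ℝ} {ψ : ℝ → T n × E n → T n × E n}

/-- Averages along the flow. -/
lemma avg_flow {F : Type*} [NormedAddCommGroup F] [NormedSpace ℝ F] [CompleteSpace F]
    (hψ : IsELFlow L ψ) {μ : Measure (T n × E n)}
    [IsProbabilityMeasure μ] (hinv : ∀ t, MeasurePreserving (ψ t) μ μ) {g : T n × E n → F}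
    (hg : Integrable g μ) {τ : ℝ} (hτ : 0 ≤ τ) :
    Integrable (fun z => ∫ s in (0:ℝ)..τ, g (ψ s z)) μ ∧
      ∫ z, (∫ s in (0:ℝ)..τ, g (ψ s z)) ∂μ = τ • ∫ z, g z ∂μ := by
  set ν : Measure ℝ := volume.restrict (Ioc 0 τ) with hν
  have hm : Measurable (Function.uncurry fun s z => ψ s z) := hψ.cont.measurable
  have hsk : MeasurePreserving (fun p : ℝ × (T n × E n) => (p.1, ψ p.1 p.2)) (ν.prod μ)
      (ν.prod μ) :=
    (MeasurePreserving.id ν).skew_product hm (Eventually.of_forall fun s => (hinv s).map_eq)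
  have h1 : Integrable (fun p : ℝ × (T n × E n) => g p.2) (ν.prod μ) := hg.comp_snd ν
  have h2 : Integrable (fun p : ℝ × (T n × E n) => g (ψ p.1 p.2)) (ν.prod μ) :=
    hsk.integrable_comp_of_integrable h1
  have h3 : ∫ p, g (ψ p.1 p.2) ∂(ν.prod μ) = ∫ p : ℝ × (T n × E n), g p.2 ∂(ν.prod μ) := by
    conv_rhs => rw [← hsk.map_eq]
    rw [integral_map hsk.measurable.aemeasurable (by rw [hsk.map_eq]; exact h1.1)]
  have h4 : (fun z => ∫ s in (0:ℝ)..τ, g (ψ s z)) = fun z => ∫ s, g (ψ s z) ∂ν := by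
    funext z; rw [integral_of_le hτ]
  rw [h4]
  refine ⟨h2.integral_prod_right, ?_⟩
  rw [← integral_prod_symm (fun p : ℝ × (T n × E n) => g (ψ p.1 p.2)) h2, h3, integral_fun_snd]
  simp [hν, hτ]

lemma flow_iter (hψ : IsELFlow L ψ) (z : T n × E n) (j : ℕ) : (ψ 1)^[j] z = ψ j z := by
  induction j with
  | zero => simp [hψ.zero]
  | succ j ih =>
    rw [Function.iterate_succ_apply', ih, ← hψ.add]
    congr 1
    push_cast; ring

lemma continuous_ell (hL : Tonelli L) (c : E n) (a : ℝ) :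
    Continuous fun z : T n × E n => L z - pair c z.2 + a :=
  ((tonelli_continuous hL).sub ((continuous_pair_right c).comp continuous_snd)).add
    continuous_const

/-- Almost every point of a minimising measure lies in the Aubry set. -/
lemma ae_mem_Aubry (hL : Tonelli L) (hψ : IsELFlow L ψ) {c : E n} {a : ℝ}
    (hloop : ∀ r, ∀ A ∈ Acts L c a r r, 0 ≤ A) {μ : Measure (T n × E n)} [IsProbabilityMeasure μ]
    (hinv : ∀ t, MeasurePreserving (ψ t) μ μ) (hint : Integrable (fun z => L z - pair c z.2) μ)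
    (hmin : ∫ z, (L z - pair c z.2) ∂μ = -a) : ∀ᵐ z ∂μ, z ∈ Aubry L c a := by
  obtain ⟨K, hK0, hK⟩ := exists_K hL c a
  set ell : T n × E n → ℝ := fun z => L z - pair c z.2 + a with hell
  have hellc : Continuous ell := continuous_ell hL c a
  have helli : Integrable ell μ := hint.add (integrable_const a)
  have hell0 : ∫ z, ell z ∂μ = 0 := by
    simp only [hell]
    rw [integral_add hint (integrable_const a), hmin]
    simp
  set U : T n → ℝ := fun q => Phi L c a 0 q with hU
  have hUc : Continuous U := continuous_Phi hL hloop 0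
  obtain ⟨CU, hCU⟩ := isCompact_univ.exists_bound_of_continuousOn hUc.continuousOn
  have hUi : Integrable (fun z : T n × E n => U z.1) μ := by
    refine Integrable.of_bound (hUc.comp continuous_fst).aestronglyMeasurable CU ?_
    exact Eventually.of_forall fun z => hCU z.1 (mem_univ _)
  have hU1i : Integrable (fun z : T n × E n => U (ψ 1 z).1) μ :=
    (hinv 1).integrable_comp_of_integrable hUi
  have hU1 : ∫ z, U (ψ 1 z).1 ∂μ = ∫ z, U z.1 ∂μ := by
    conv_rhs => rw [← (hinv 1).map_eq]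
    rw [integral_map (hinv 1).measurable.aemeasurable (by rw [(hinv 1).map_eq]; exact hUi.1)]
  obtain ⟨hA1, hA2⟩ := avg_flow hψ hinv helli zero_le_one
  set F : T n × E n → ℝ := fun z => (∫ s in (0:ℝ)..1, ell (ψ s z)) - (U (ψ 1 z).1 - U z.1) with hF
  have hF0 : ∀ z, 0 ≤ F z := by
    intro z
    have h1 := orbit_acts hL hψ c a z zero_lt_one
    have h2 := Phi_step hL hloop (p := 0) h1
    rw [hψ.zero] at h2
    simp only [hF, hU, hell]
    linarith
  have hd : Integrable (fun z : T n × E n => U (ψ 1 z).1 - U z.1) μ := hU1i.sub hUi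
  have hFi : Integrable F μ := hA1.sub hd
  have hFint : ∫ z, F z ∂μ = 0 := by
    simp only [hF]
    rw [integral_sub hA1 hd, integral_sub hU1i hUi, hA2, hU1, hell0]
    simp
  have hFae : ∀ᵐ z ∂μ, F z = 0 :=
    (integral_eq_zero_iff_of_nonneg hF0 hFi).1 hFint
  have hFall : ∀ᵐ z ∂μ, ∀ m : ℤ, F (ψ m z) = 0 :=
    ae_all_iff.2 fun m => (hinv m).quasiMeasurePreserving.ae hFae
  have hrec : ∀ᵐ z ∂μ, ∀ s ∈ 𝓝 z, ∃ᶠ j : ℕ in atTop, (ψ 1)^[j] z ∈ s :=
    (hinv 1).conservative.ae_frequently_mem_of_mem_nhds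
  have hrecall : ∀ᵐ z ∂μ, ∀ m : ℤ, ∀ s ∈ 𝓝 (ψ m z), ∃ᶠ j : ℕ in atTop, (ψ 1)^[j] (ψ m z) ∈ s :=
    ae_all_iff.2 fun m => (hinv m).quasiMeasurePreserving.ae hrec
  filter_upwards [hFall, hrecall] with z hFz hrz
  -- integrals over integer windows
  have hcont : Continuous fun s => ell (ψ s z) := hellc.comp (continuous_orbit hψ z)
  have hii : ∀ x y : ℝ, IntervalIntegrable (fun s => ell (ψ s z)) volume x y := fun x y =>
    hcont.intervalIntegrable _ _
  have hwin : ∀ (m : ℤ) (j : ℕ), (∫ s in (m:ℝ)..(m + j), ell (ψ s z)) =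
      U (ψ (m + j) z).1 - U (ψ m z).1 := by
    intro m j
    induction j with
    | zero => simp
    | succ j ih =>
      have h1 := hFz (m + j)
      simp only [hF] at h1
      have h2 : (∫ s in (0:ℝ)..1, ell (ψ s (ψ ((m + j : ℤ) : ℝ) z))) =
          ∫ s in ((m:ℝ) + j)..(m + (j + 1 : ℕ)), ell (ψ s z) := by
        have h3 : (fun s => ell (ψ s (ψ ((m + j : ℤ) : ℝ) z))) =
            fun s => (fun x => ell (ψ x z)) (s + ((m:ℝ) + j)) := by
          funext s
          simp only [← hψ.add]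
          push_cast; rfl
        rw [h3, integral_comp_add_right (fun x => ell (ψ x z)) ((m:ℝ) + j)]
        push_cast
        congr 1 <;> ring
      have h4 : ψ 1 (ψ ((m + j : ℤ) : ℝ) z) = ψ ((m:ℝ) + (j + 1 : ℕ)) z := by
        rw [← hψ.add]; congr 1; push_cast; ring
      rw [h2, h4] at h1
      have h5 : (∫ s in (m:ℝ)..(m + (j + 1 : ℕ)), ell (ψ s z)) =
          (∫ s in (m:ℝ)..(m + j), ell (ψ s z)) +
            ∫ s in ((m:ℝ) + j)..(m + (j + 1 : ℕ)), ell (ψ s z) :=
        (integral_add_adjacent_intervals (hii _ _) (hii _ _)).symm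
      rw [h5, ih]
      push_cast at h1 ⊢
      linarith
  -- the orbit is static
  have hstat : ∀ s t : ℝ, s < t →
      (∫ r in s..t, ell (ψ r z)) + Phi L c a (ψ t z).1 (ψ s z).1 ≤ 0 := by
    intro s t hst
    set m : ℤ := ⌊s⌋ - 1 with hm
    have hms : (m:ℝ) < s := by
      rw [hm]; push_cast; linarith [Int.floor_le s]
    refine le_of_forall_pos_le_add fun ε hε => ?_
    set δ : ℝ := ε / (2 * (K + 1)) with hδ
    have hδ0 : 0 < δ := by positivity
    have hKδ : 2 * (K * δ) ≤ ε := by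
      rw [hδ]; field_simp; nlinarith
    obtain ⟨J, hJ⟩ := exists_nat_gt (t - m)
    obtain ⟨j, hj, hjb⟩ := Filter.frequently_atTop.1
      (hrz m (Metric.ball (ψ m z) δ) (Metric.ball_mem_nhds _ hδ0)) J
    rw [flow_iter hψ, ← hψ.add, add_comm (j:ℝ)] at hjb
    have hdist : dist (ψ (m + j) z).1 (ψ m z).1 ≤ δ :=
      (le_max_left _ _).trans (Metric.mem_ball.1 hjb).le
    have htj : t < (m:ℝ) + j := by
      have : (J:ℝ) ≤ j := by exact_mod_cast hj
      linarith
    have hw := hwin m j
    have hUU : U (ψ (m + j) z).1 - U (ψ m z).1 ≤ K * δ := by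
      have := Phi_near hL hloop hK (p := 0) hδ0 (by rwa [dist_comm] at hdist)
      exact (le_abs_self _).trans this
    obtain ⟨B, hB, hB'⟩ := acts_near hL hK hδ0 hdist
    have h1 := orbit_acts hL hψ c a z htj
    have h2 := orbit_acts hL hψ c a z hms
    have h3 := Phi_le hL hloop (acts_trans (acts_trans h1 hB) h2)
    have h4 : (∫ r in (m:ℝ)..s, ell (ψ r z)) + (∫ r in s..t, ell (ψ r z)) +
        (∫ r in t..(m + j), ell (ψ r z)) = ∫ r in (m:ℝ)..(m + j), ell (ψ r z) := by
      rw [integral_add_adjacent_intervals (hii _ _) (hii _ _),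
        integral_add_adjacent_intervals (hii _ _) (hii _ _)]
    simp only [hell] at h4 hw hwin ⊢
    linarith
  obtain ⟨γ, v, hγ, hψz, _⟩ := hψ.el z
  refine ⟨γ, v, fun s t hst => ⟨⟨?_, ?_⟩, ?_, ?_⟩, 0, ?_, ?_⟩
  · have hv : Continuous v := by
      have : v = fun t => (ψ t z).2 := by funext t; rw [hψz]
      rw [this]
      exact continuous_snd.comp (continuous_orbit hψ z)
    exact hv.intervalIntegrable _ _
  · have hv : Continuous v := by
      have : v = fun t => (ψ t z).2 := by funext t; rw [hψz]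
      rw [this]
      exact continuous_snd.comp (continuous_orbit hψ z)
    intro r _
    rw [integral_eq_sub_of_hasDerivAt (fun x _ => hγ x) (hv.intervalIntegrable _ _)]
    abel
  · have : (fun r => L (proj (γ r), v r)) = fun r => L (ψ r z) := by
      funext r; rw [hψz]
    rw [this]
    exact ((tonelli_continuous hL).comp (continuous_orbit hψ z)).intervalIntegrable _ _
  · have h1 : (fun r => L (proj (γ r), v r) - pair c (v r) + a) = fun r => ell (ψ r z) := by
      funext r; simp only [hell, hψz]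
    have h2 : proj (γ s) = (ψ s z).1 := by rw [hψz]
    have h3 : proj (γ t) = (ψ t z).1 := by rw [hψz]
    rw [h1, h2, h3]
    have h4 : -(∫ r in s..t, ell (ψ r z)) = Phi L c a (ψ t z).1 (ψ s z).1 := by
      have h5 := hstat s t hst
      have h6 := Phi_step_left hL hloop (r := (ψ s z).1) (orbit_acts hL hψ c a z hst)
      have h7 := Phi_self_nonneg hL hloop (ψ s z).1
      simp only [hell] at h5 ⊢
      linarith
    rw [h4]
    exact isGLB_csInf (acts_nonempty hL c a _ _) (bdd_acts hL hloop _ _)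
  · have := hψz 0
    rw [hψ.zero] at this
    rw [this]
  · have := hψz 0
    rw [hψ.zero] at this
    have h2 : z.2 = v 0 := by rw [this]
    rw [h2]
    exact hγ 0

end Pool.Agent.Lib.MP_d28baf_an
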